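import Pool.Agent.Helper61.FN.Goals

/-!
# Project FN (MP_06d934_gt), packet FN-DED: the Dedekind domain
-/

set_option autoImplicit false

namespace Pool.Agent.Helper66.FN

open Pool.Agent.Helper61.FN Polynomial
open scoped IntermediateField.algebraAdjoinAdjoin

theorem goalDED : G_DED := by
  intro F K _ _ _ _ t ht hfin
  have hinj : Function.Injective (aeval t : F[X] →ₐ[F] K) :=
    transcendental_iff_injective.mp ht
  -- the ring `F[t]`
  have hmem : ∀ p : F[X], aeval t p ∈ Algebra.adjoin F {t} := fun p =>
    Algebra.adjoin_singleton_eq_range_aeval F t ▸ ⟨p, rfl⟩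
  let φ : F[X] →ₐ[F] Algebra.adjoin F {t} := (aeval t).codRestrict _ hmem
  have hφ : Function.Surjective φ := by
    rintro ⟨a, ha⟩
    rw [Algebra.adjoin_singleton_eq_range_aeval] at ha
    obtain ⟨p, hp⟩ := ha
    exact ⟨p, Subtype.ext hp⟩
  have hPID : IsPrincipalIdealRing (Algebra.adjoin F {t}) :=
    IsPrincipalIdealRing.of_surjective φ.toRingHom hφ
  have hfin' : FiniteDimensional (IntermediateField.adjoin F {t}) K := hfin
  have hsep : Algebra.IsSeparable (IntermediateField.adjoin F {t}) K := inferInstance
  have h1 : IsDedekindDomain (integralClosure (Algebra.adjoin F {t}) K) :=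
    integralClosure.isDedekindDomain (Algebra.adjoin F {t}) (IntermediateField.adjoin F {t}) K
  have h2 : IsFractionRing (integralClosure (Algebra.adjoin F {t}) K) K :=
    integralClosure.isFractionRing_of_finite_extension (IntermediateField.adjoin F {t}) K
  have h3 : Module.Finite (Algebra.adjoin F {t}) (integralClosure (Algebra.adjoin F {t}) K) :=
    IsIntegralClosure.finite (Algebra.adjoin F {t}) (IntermediateField.adjoin F {t}) K _
  have htA : t ∈ Algebra.adjoin F {t} := Algebra.subset_adjoin rfl
  refine ⟨(integralClosure (Algebra.adjoin F {t}) K).restrictScalars F, ?_⟩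
  refine ⟨h1, h2, ?_, ?_, ?_, ?_⟩
  · exact isIntegral_algebraMap (R := Algebra.adjoin F {t}) (x := ⟨t, htA⟩)
  · exact fun r hr => hr
  · obtain ⟨s, hs⟩ := h3
    refine ⟨s.map ⟨Subtype.val, Subtype.val_injective⟩, fun r hr => ?_⟩
    have h4 : (⟨r, hr⟩ : integralClosure (Algebra.adjoin F {t}) K) ∈
        Submodule.span (Algebra.adjoin F {t}) (s : Set _) := by
      rw [hs]; trivial
    have h5 := Submodule.mem_map_of_mem
      (f := (integralClosure (Algebra.adjoin F {t}) K).val.toLinearMap) h4
    rw [Submodule.map_span] at h5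
    simpa using h5
  · intro hn
    have hn' : IsIntegral (Algebra.adjoin F {t}) t⁻¹ := hn
    have h6 : IsIntegral (Algebra.adjoin F {t})
        (⟨t, IntermediateField.mem_adjoin_simple_self F t⟩⁻¹ : IntermediateField.adjoin F {t}) := by
      have : (algebraMap (IntermediateField.adjoin F {t}) K)
          (⟨t, IntermediateField.mem_adjoin_simple_self F t⟩⁻¹ : IntermediateField.adjoin F {t}) =
          t⁻¹ := by rw [map_inv₀]; rfl
      rw [← this] at hn'
      exact (isIntegral_algebraMap_iff (algebraMap (IntermediateField.adjoin F {t}) K).injective).1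
        hn'
    obtain ⟨y, hy⟩ := IsIntegrallyClosed.isIntegral_iff.1 h6
    obtain ⟨p, hp⟩ := hφ y
    have h7 : aeval t p = t⁻¹ := by
      have e1 : (y : K) = aeval t p := by rw [← hp]; rfl
      have e2 := congrArg (algebraMap (IntermediateField.adjoin F {t}) K) hy
      rw [map_inv₀] at e2
      rw [← e1]
      exact e2
    have ht0 : t ≠ 0 := by
      rintro rfl
      exact ht (isAlgebraic_zero)
    have h8 : aeval t (X * p - 1) = 0 := by
      rw [map_sub, map_mul, aeval_X, map_one, h7, mul_inv_cancel₀ ht0, sub_self]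
    have h9 : X * p - 1 = 0 := hinj (by rw [h8, map_zero])
    have h10 := congrArg (eval 0) h9
    simp at h10

end Pool.Agent.Helper66.FN
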